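import Mathlib
import Pool.Agent.Lib.ZFCForcing.Defs
import Pool.Agent.Lib.MP_c8e566_gt.Defs
import Pool.Agent.Lib.MP_c8e566_gt.Main

set_option autoImplicit false

namespace Pool.Agent.Results.MP_c8e566_gt.NotPreserved

open Pool.Agent.Lib.ZFCForcing Pool.Agent.Lib.MP_c8e566_gt

/-- In some transitive model of ZFC there is a set of reals that satisfies both selection
principles for countable Borel omega-covers, while its square satisfies neither. -/
theorem result : ∃ M : ZFSet.{0}, IsZFC M ∧ ∃ X ∈ M, (∀ z ∈ X, z ∈ Set.range real) ∧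
    S1 real M X ∧ Sfin real M X ∧ ¬ S1 point M (X.prod X) ∧ ¬ Sfin point M (X.prod X) :=
  main

end Pool.Agent.Results.MP_c8e566_gt.NotPreserved
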